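import Pool.Agent.N321.KT.Defs

/-!
# Project KT (helper321), leaf PUR: it is enough to consider the pure derivatives (helper252)
-/

set_option autoImplicit false

namespace Pool.Agent.N252.KT

open Pool.Agent.N321.KT

/-- the top term of the Leibniz rule -/
theorem mul_top {ι R : Type} [CommRing R] : ∀ (w : List ι) (u x : Jet ι R),
    (∀ w' : List ι, w'.length < w.length → x w' = 0) → mul u x w = u [] * x w
  | [], u, x, _ => rfl
  | i :: w, u, x, h => by
      have h1 : mul (D i u) x w = (D i u) [] * x w :=
        mul_top w (D i u) x fun w' hw' => h w' (by simp; omega)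
      have h2 : mul u (D i x) w = u [] * (D i x) w :=
        mul_top w u (D i x) fun w' hw' => h (i :: w') (by simp; omega)
      have h3 : x w = 0 := h w (by simp)
      show mul (D i u) x w + mul u (D i x) w = u [] * x (i :: w)
      rw [h1, h2, h3, mul_zero, zero_add]
      rfl

theorem th_top {ι : Type} [Fintype ι] [DecidableEq ι] (K : ι → ι → Jet ι ℝ) (d : ι → ℝ)
    (hK : ∀ s j, K s j [] = if s = j then d s else 0) (v : Jet ι ℝ) (j : ι) (w : List ι)
    (hv : ∀ w' : List ι, 1 ≤ w'.length → w'.length ≤ w.length → v w' = 0) :
    th K v j w = d j * v (j :: w) := by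
  show ∑ s, mul (K s j) (D s v) w = d j * v (j :: w)
  have h : ∀ s, mul (K s j) (D s v) w = (if s = j then d s else 0) * v (s :: w) := by
    intro s
    rw [mul_top w (K s j) (D s v) fun w' hw' => hv (s :: w') (by simp) (by simpa using hw'), hK]
    rfl
  simp only [h]
  rw [Finset.sum_eq_single j]
  · rw [if_pos rfl]
  · intro s _ hs
    rw [if_neg hs, zero_mul]
  · intro h'
    exact absurd (Finset.mem_univ j) h'

theorem t : S_PUR := by
  intro ι _ _ m K d hd hK hpure
  intro v hv
  have hSym : Sym v := hv.1
  have hTr : Tr m v := hv.2.1
  have hRows : Rows m K v := hv.2.2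
  have claim : ∀ k : ℕ, ∀ w : List ι, w.length = k → 1 ≤ k → k ≤ m →
      (k < m ∨ ¬ ∀ i ∈ w, ∀ j ∈ w, i = j) → v w = 0 := by
    intro k
    induction k using Nat.strong_induction_on with
    | _ k ih =>
      intro w hw hk1 hkm hcase
      by_cases hall : ∀ i ∈ w, ∀ j ∈ w, i = j
      · have hkm' : k < m := by
          rcases hcase with h | h
          · exact h
          · exact absurd hall h
        cases w with
        | nil =>
          simp at hw
          omega
        | cons i w =>
          have e : i :: w = List.replicate k i := by
            rw [List.eq_replicate_iff]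
            exact ⟨hw, fun b hb => hall b hb i (by simp)⟩
          rw [e]
          exact hpure v hv i k hk1 hkm'
      · push Not at hall
        obtain ⟨a, ha, b, hb, hab⟩ := hall
        have hb' : b ∈ w.erase a := (List.mem_erase_of_ne (Ne.symm hab)).2 hb
        have p1 : w.Perm (a :: w.erase a) := List.perm_cons_erase ha
        have p2 : (w.erase a).Perm (b :: (w.erase a).erase b) := List.perm_cons_erase hb'
        have p : w.Perm (a :: b :: (w.erase a).erase b) := p1.trans (p2.cons a)
        obtain ⟨w2, hw2⟩ : ∃ w2, w2 = (w.erase a).erase b := ⟨_, rfl⟩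
        rw [← hw2] at p
        have hlen : w2.length + 2 = k := by
          have h := p.length_eq
          rw [hw] at h
          simp at h
          omega
        have hsmall : ∀ w' : List ι, 1 ≤ w'.length → w'.length ≤ w2.length + 1 → v w' = 0 := by
          intro w' h1 h2
          exact ih w'.length (by omega) w' rfl h1 (by omega) (Or.inl (by omega))
        have h0 : om K v b a w2 = 0 := hRows w2 (by omega) b a
        have h1 : th K v a (b :: w2) = d a * v (a :: b :: w2) :=
          th_top K d hK v a (b :: w2) fun w' g1 g2 => hsmall w' g1 (by simpa using g2)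
        have h2 : th K v b (a :: w2) = d b * v (b :: a :: w2) :=
          th_top K d hK v b (a :: w2) fun w' g1 g2 => hsmall w' g1 (by simpa using g2)
        have h3 : v (b :: a :: w2) = v (a :: b :: w2) := hSym _ _ (List.Perm.swap a b w2)
        have h4 : th K v a (b :: w2) - th K v b (a :: w2) = 0 := h0
        rw [h1, h2, h3] at h4
        have h5 : (d a - d b) * v (a :: b :: w2) = 0 := by linarith
        rw [hSym _ _ p]
        rcases mul_eq_zero.1 h5 with h6 | h6
        · exact absurd (hd (sub_eq_zero.1 h6)) hab
        · exact h6
  intro w hw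
  obtain ⟨h1, h2⟩ := hTr w hw
  constructor
  · by_contra hne
    exact hw (claim w.length w rfl h1 h2 (Or.inl (lt_of_le_of_ne h2 hne)))
  · by_contra hne
    exact hw (claim w.length w rfl h1 h2 (Or.inr hne))

end Pool.Agent.N252.KT
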